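import Mathlib
import Pool.Agent.TH994.ZC.Markov

set_option autoImplicit false

namespace Pool.Agent.Results.MP_337e34_al.OutsideBurnsideType

open Pool.Agent.TH994.ZC

universe u

/-- **If all countable subgroups of `G` have cofinite Markov topology, then so has `G`, unless `G` is an
uncountable non-abelian group of prime exponent `p ≥ 5` of a very special kind.** -/
theorem result (G : Type u) [Group G]
    (h : ∀ H : Subgroup G, (H : Set G).Countable → MarkovCofinite H) :
    MarkovCofinite G ∨
      (Uncountable G ∧ (¬ ∀ a b : G, a * b = b * a) ∧ CofiniteZariski G ∧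
        ∃ p : ℕ, p.Prime ∧ 5 ≤ p ∧ (∀ x : G, x ^ p = 1) ∧
          Finite (Subgroup.center G) ∧
          (∀ a : G, a ∉ Subgroup.center G → {x : G | x * a = a * x}.Finite) ∧
          (∀ N : Subgroup G, N.Normal → Finite N → N ≤ Subgroup.center G) ∧
          (∀ H : Subgroup G, Group.IsSolvable H → Finite H) ∧
          (∀ H : Subgroup G, (∀ K : Subgroup G, K ≤ H → K.FG → Finite K) → Finite H) ∧
          (∀ H : Subgroup G, Infinite H → ∀ w : FreeGroup ℕ,
            (∀ f : ℕ → G, (∀ i, f i ∈ H) → FreeGroup.lift f w = 1) →
              ∀ f : ℕ → G, FreeGroup.lift f w = 1)) := by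
  by_cases hc : Countable G
  · exact Or.inl (countable_case hc h)
  by_cases hab : ∀ a b : G, a * b = b * a
  · exact Or.inl (abelian_case hab h)
  right
  have hun : Uncountable G := not_countable_iff.1 hc
  have hG := inC_of_countable h
  obtain ⟨p, hp, hexp⟩ := prime_exponent hG hab
  exact ⟨hun, hab, cof_of_inC hG, p, hp, prime_ge_five hG hab hp hexp, hexp,
    (center_finite hG hab).to_subtype, fun a ha => centralizer_finite hG ha,
    fun N hN hf => finite_normal_central hG N hN hf,
    fun H hs => solvable_finite hG hab H hs,
    fun H hloc => locally_finite hG hab H hloc,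
    fun H hH w hw f => law hG H hH w hw f⟩

end Pool.Agent.Results.MP_337e34_al.OutsideBurnsideType
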